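import Mathlib
import Pool.Agent.R658.CN.Defs
import Pool.Agent.R658.CN.Stmts
import Pool.Agent.R658.CN.Stmts2
import Pool.Agent.R658.CN.Main2
import Pool.Agent.R658.CN.Char
import Pool.Agent.R658.CN.TM
import Pool.Agent.R658.CN.TN
import Pool.Agent.R658.CN.TF
import Pool.Agent.R658.CN.TDiv
import Pool.Agent.R658.CN.TD
import Pool.Agent.R658.CN.TB0
import Pool.Agent.R658.CN.TDD
import Pool.Agent.R658.CN.TBad
import Pool.Agent.R658.CN.TSigma
import Pool.Agent.R658.CN.TComb
import Pool.Agent.R658.CN.TApx
import Pool.Agent.R658.CN.TConn
import Pool.Agent.R658.CN.TWeight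
import Pool.Agent.R658.CN.TLift

/-!
# MP_12f6a1_al: components of precompact sequentially complete locally minimal nilpotent groups

`SeqComplete` and `LocallyMinimal` are defined in `Pool.Agent.R658.CN.Defs`, `weight` and
`UlamMeasurable` in `Pool.Agent.R658.CN.Stmts2`.
A compact Hausdorff group `K` with a dense topological embedding `i : G → K` is the same thing as
the completion of a precompact group `G`.
-/

namespace Pool.Agent.Results.MP_12f6a1_al.ComponentsEqual

open Topology R658.CN

universe u

theorem result {G K : Type u} [Group G] [TopologicalSpace G] [IsTopologicalGroup G] [Group K]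
    [TopologicalSpace K] [IsTopologicalGroup K] [CompactSpace K] [T2Space K] (i : G →* K)
    (hi : IsEmbedding i) (hd : DenseRange i) (hnil : Group.IsNilpotent G) (hseq : SeqComplete G)
    (hloc : LocallyMinimal G) (hw : ¬ UlamMeasurable (weight (connectedComponent (1 : G)))) :
    i '' connectedComponent (1 : G) = connectedComponent (1 : K) :=
  main2 taskChar taskM taskN (taskF taskChar) (taskDiv taskChar) (taskB0 taskChar)
    (taskBad taskChar taskChar taskD (taskDD taskChar taskD)) (taskSigma taskChar taskD) taskComb
    (taskApx taskChar taskD) (taskConn taskChar taskD (taskApx taskChar taskD))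
    (taskWeight taskChar taskD) (taskLift taskChar taskD) i hi hd hnil hseq hloc hw

end Pool.Agent.Results.MP_12f6a1_al.ComponentsEqual
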